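import Mathlib

/-!
# The space of Lipschitz maps vanishing at the base point
-/

open Filter Topology Set

namespace Pool.Agent.X171.LS

universe u v

section
variable {M : Type u} [MetricSpace M] (o : M) (Y : Type v) [NormedAddCommGroup Y] [NormedSpace ℝ Y]

/-- the vector space of the Lipschitz maps `M → Y` which vanish at `o` -/
def lipSub : Submodule ℝ (M → Y) where
  carrier := {f | f o = 0 ∧ ∃ K : ℝ, ∀ x y, ‖f x - f y‖ ≤ K * dist x y}
  add_mem' := by
    rintro f g ⟨hf, K, hK⟩ ⟨hg, L, hL⟩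
    refine ⟨by rw [Pi.add_apply, hf, hg, add_zero], K + L, fun x y => ?_⟩
    rw [Pi.add_apply, Pi.add_apply, add_mul]
    have : f x + g x - (f y + g y) = (f x - f y) + (g x - g y) := by abel
    rw [this]
    exact (norm_add_le _ _).trans (add_le_add (hK x y) (hL x y))
  zero_mem' := ⟨rfl, 0, fun x y => by simp⟩
  smul_mem' := by
    rintro c f ⟨hf, K, hK⟩
    refine ⟨by rw [Pi.smul_apply, hf, smul_zero], ‖c‖ * K, fun x y => ?_⟩
    rw [Pi.smul_apply, Pi.smul_apply, ← smul_sub, norm_smul, mul_assoc]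
    exact mul_le_mul_of_nonneg_left (hK x y) (norm_nonneg _)

/-- the space `Lip(M, Y)` -/
def Lip : Type (max u v) := lipSub o Y

instance : AddCommGroup (Lip o Y) := inferInstanceAs (AddCommGroup (lipSub o Y))
instance : Module ℝ (Lip o Y) := inferInstanceAs (Module ℝ (lipSub o Y))
instance : CoeFun (Lip o Y) fun _ => M → Y := ⟨fun f => f.1⟩

/-- the norm `sup ‖f x - f y‖ / d(x, y)` -/
noncomputable instance : Norm (Lip o Y) :=
  ⟨fun f => ⨆ p : M × M, ‖f p.1 - f p.2‖ / dist p.1 p.2⟩

end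

variable {M : Type u} [MetricSpace M] {o : M} {Y : Type v} [NormedAddCommGroup Y] [NormedSpace ℝ Y]

namespace Lip

/-- constructor -/
def mk (f : M → Y) (h0 : f o = 0) (K : ℝ) (h : ∀ x y, ‖f x - f y‖ ≤ K * dist x y) : Lip o Y :=
  ⟨f, h0, K, h⟩

lemma mk_apply (f : M → Y) (h0 : f o = 0) (K : ℝ) (h) (x : M) : mk (o := o) f h0 K h x = f x := rfl

lemma base (f : Lip o Y) : f o = 0 := f.2.1

lemma add_apply (f g : Lip o Y) (x : M) : (f + g) x = f x + g x := rfl
lemma sub_apply (f g : Lip o Y) (x : M) : (f - g) x = f x - g x := rfl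
lemma smul_apply (c : ℝ) (f : Lip o Y) (x : M) : (c • f) x = c • f x := rfl
lemma zero_apply (x : M) : (0 : Lip o Y) x = 0 := rfl

lemma sum_apply {ι : Type*} (s : Finset ι) (f : ι → Lip o Y) (x : M) :
    (∑ i ∈ s, f i) x = ∑ i ∈ s, f i x := by
  classical
  induction s using Finset.induction_on with
  | empty => simp [zero_apply]
  | insert a s ha ih => rw [Finset.sum_insert ha, Finset.sum_insert ha, add_apply, ih]

lemma ext {f g : Lip o Y} (h : ∀ x, f x = g x) : f = g := Subtype.ext (funext h)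

lemma norm_def (f : Lip o Y) : ‖f‖ = ⨆ p : M × M, ‖f p.1 - f p.2‖ / dist p.1 p.2 := rfl

lemma bdd (f : Lip o Y) : BddAbove (range fun p : M × M => ‖f p.1 - f p.2‖ / dist p.1 p.2) := by
  obtain ⟨K, hK⟩ := f.2.2
  refine ⟨max K 0, ?_⟩
  rintro _ ⟨p, rfl⟩
  rcases eq_or_ne p.1 p.2 with h | h
  · simp [h]
  · refine (div_le_iff₀ (dist_pos.2 h)).2 ((hK p.1 p.2).trans ?_)
    exact mul_le_mul_of_nonneg_right (le_max_left _ _) dist_nonneg

lemma norm_sub_le (f : Lip o Y) (x y : M) : ‖f x - f y‖ ≤ ‖f‖ * dist x y := by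
  rcases eq_or_ne x y with h | h
  · simp [h]
  · rw [← div_le_iff₀ (dist_pos.2 h)]
    exact le_ciSup f.bdd (x, y)

lemma norm_nonneg' (f : Lip o Y) : 0 ≤ ‖f‖ :=
  Real.iSup_nonneg fun p => by positivity

lemma norm_le (f : Lip o Y) {K : ℝ} (hK : 0 ≤ K) (h : ∀ x y, ‖f x - f y‖ ≤ K * dist x y) :
    ‖f‖ ≤ K := by
  refine Real.iSup_le (fun p => ?_) hK
  rcases eq_or_ne p.1 p.2 with h' | h'
  · simp [h', hK]
  · exact (div_le_iff₀ (dist_pos.2 h')).2 (h _ _)

end Lip

lemma core : NormedSpace.Core ℝ (Lip o Y) where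
  norm_nonneg f := f.norm_nonneg'
  norm_smul c f := by
    apply le_antisymm
    · refine Lip.norm_le _ (mul_nonneg (norm_nonneg _) f.norm_nonneg') fun x y => ?_
      rw [Lip.smul_apply, Lip.smul_apply, ← smul_sub, norm_smul, mul_assoc]
      exact mul_le_mul_of_nonneg_left (f.norm_sub_le x y) (norm_nonneg _)
    · rcases eq_or_ne c 0 with rfl | hc
      · rw [norm_zero, zero_mul]
        exact Lip.norm_nonneg' _
      · have hc' : 0 < ‖c‖ := norm_pos_iff.2 hc
        rw [mul_comm, ← le_div_iff₀ hc']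
        refine Lip.norm_le _ (div_nonneg (Lip.norm_nonneg' _) hc'.le) fun x y => ?_
        have h := Lip.norm_sub_le (c • f) x y
        rw [Lip.smul_apply, Lip.smul_apply, ← smul_sub, norm_smul] at h
        rw [div_mul_eq_mul_div, le_div_iff₀ hc', mul_comm]
        exact h
  norm_triangle f g := by
    refine Lip.norm_le _ (add_nonneg f.norm_nonneg' g.norm_nonneg') fun x y => ?_
    rw [Lip.add_apply, Lip.add_apply, add_mul]
    have : f x + g x - (f y + g y) = (f x - f y) + (g x - g y) := by abel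
    rw [this]
    exact (norm_add_le _ _).trans (add_le_add (f.norm_sub_le x y) (g.norm_sub_le x y))
  norm_eq_zero_iff f := by
    constructor
    · intro h
      refine Lip.ext fun x => ?_
      have := f.norm_sub_le x o
      rw [h, zero_mul, f.base, sub_zero] at this
      exact norm_le_zero_iff.1 this
    · rintro rfl
      apply le_antisymm
      · exact Lip.norm_le _ le_rfl fun x y => by simp [Lip.zero_apply]
      · exact Lip.norm_nonneg' _

noncomputable instance : NormedAddCommGroup (Lip o Y) := NormedAddCommGroup.ofCore core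
noncomputable instance : NormedSpace ℝ (Lip o Y) := NormedSpace.ofCore core

/-- slices of the unit ball -/
def slice {Z : Type*} [NormedAddCommGroup Z] [NormedSpace ℝ Z] (φ : StrongDual ℝ Z) (α : ℝ) :
    Set Z := {z | ‖z‖ ≤ 1 ∧ 1 - α < φ z}

/-- The strong diameter two property: every convex combination of slices of the unit ball has
diameter two. -/
def SD2P (Z : Type*) [NormedAddCommGroup Z] [NormedSpace ℝ Z] : Prop :=
  ∀ (n : ℕ) (φ : Fin n → StrongDual ℝ Z) (α lam : Fin n → ℝ), (∀ i, ‖φ i‖ = 1) →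
    (∀ i, 0 < α i) → (∀ i, 0 < lam i) → ∑ i, lam i = 1 →
      Metric.diam {z : Z | ∃ s : Fin n → Z, (∀ i, s i ∈ slice (φ i) (α i)) ∧
        z = ∑ i, lam i • s i} = 2

/-- The contraction-extension property of the pair `(M, Y)`. -/
def CPE (M : Type*) [MetricSpace M] (Y : Type*) [NormedAddCommGroup Y] : Prop :=
  ∀ (N : Set M) (K : NNReal) (f : M → Y), LipschitzOnWith K f N →
    ∃ F : M → Y, LipschitzWith K F ∧ Set.EqOn F f N

end Pool.Agent.X171.LS
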