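import Pool.Agent.X171.LS.Defs

/-! The strong diameter two property from a metric condition. -/

open Filter Topology Set

namespace Pool.Agent.X171.LS

universe u v

variable {M : Type u} [MetricSpace M] {o : M} {Y : Type v} [NormedAddCommGroup Y] [NormedSpace ℝ Y]

lemma card_filter_le_one {U : ℕ → Set M} (hU : Pairwise fun m n => Disjoint (U m) (U n))
    (x : M) (s : Finset ℕ) [DecidablePred fun k => x ∈ U k] :
    (s.filter fun k => x ∈ U k).card ≤ 1 := by
  rw [Finset.card_le_one]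
  intro a ha b hb
  by_contra hab
  exact Set.disjoint_left.1 (hU hab) (Finset.mem_filter.1 ha).2 (Finset.mem_filter.1 hb).2

/-- Bounded sequences of functions with disjoint supports are weakly null. -/
lemma weak_null {U : ℕ → Set M} (hU : Pairwise fun m n => Disjoint (U m) (U n))
    {C : ℝ} (hC : 0 ≤ C) (h : ℕ → Lip o Y) (hb : ∀ k, ‖h k‖ ≤ C) (h0 : ∀ k, ∀ x ∉ U k, h k x = 0)
    (φ : StrongDual ℝ (Lip o Y)) : Tendsto (fun k => φ (h k)) atTop (𝓝 0) := by
  classical
  have hterm : ∀ k x y, ‖h k x - h k y‖ ≤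
      (if x ∈ U k then C * dist x y else 0) + (if y ∈ U k then C * dist x y else 0) := by
    intro k x y
    have h1 : ‖h k x - h k y‖ ≤ C * dist x y :=
      ((h k).norm_sub_le x y).trans (mul_le_mul_of_nonneg_right (hb k) dist_nonneg)
    have h2 : 0 ≤ C * dist x y := mul_nonneg hC dist_nonneg
    by_cases hx : x ∈ U k
    · rw [if_pos hx]
      split_ifs <;> linarith
    · by_cases hy : y ∈ U k
      · rw [if_neg hx, if_pos hy, zero_add]
        exact h1
      · rw [if_neg hx, if_neg hy, h0 k x hx, h0 k y hy]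
        simp
  have hsum : ∀ (s : Finset ℕ) (ε : ℕ → ℝ), (∀ k, |ε k| ≤ 1) →
      ‖∑ k ∈ s, ε k • h k‖ ≤ 2 * C := by
    intro s ε hε
    refine Lip.norm_le _ (by positivity) fun x y => ?_
    rw [Lip.sum_apply, Lip.sum_apply, ← Finset.sum_sub_distrib]
    have h3 : ∀ z : M, ∑ k ∈ s, (if z ∈ U k then C * dist x y else 0) ≤ C * dist x y := by
      intro z
      rw [← Finset.sum_filter, Finset.sum_const, nsmul_eq_mul]
      have h4 : ((s.filter fun k => z ∈ U k).card : ℝ) ≤ 1 := by
        exact_mod_cast card_filter_le_one hU z s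
      exact mul_le_of_le_one_left (mul_nonneg hC dist_nonneg) h4
    calc ‖∑ k ∈ s, ((ε k • h k) x - (ε k • h k) y)‖
        ≤ ∑ k ∈ s, ‖(ε k • h k) x - (ε k • h k) y‖ := norm_sum_le _ _
      _ ≤ ∑ k ∈ s, ((if x ∈ U k then C * dist x y else 0) +
            (if y ∈ U k then C * dist x y else 0)) := by
          refine Finset.sum_le_sum fun k _ => ?_
          rw [Lip.smul_apply, Lip.smul_apply, ← smul_sub, norm_smul, Real.norm_eq_abs]
          exact (mul_le_of_le_one_left (norm_nonneg _) (hε k)).trans (hterm k x y)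
      _ ≤ C * dist x y + C * dist x y := by
          rw [Finset.sum_add_distrib]
          exact add_le_add (h3 x) (h3 y)
      _ = 2 * C * dist x y := by ring
  have hsummable : Summable fun k => |φ (h k)| := by
    refine summable_of_sum_le (c := ‖φ‖ * (2 * C)) (fun k => abs_nonneg _) fun s => ?_
    let ε : ℕ → ℝ := fun k => if 0 ≤ φ (h k) then 1 else -1
    have hε : ∀ k, |ε k| ≤ 1 := fun k => by
      simp only [ε]
      split_ifs <;> norm_num
    have h5 : ∑ k ∈ s, |φ (h k)| = φ (∑ k ∈ s, ε k • h k) := by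
      rw [map_sum]
      refine Finset.sum_congr rfl fun k _ => ?_
      rw [map_smul, smul_eq_mul]
      simp only [ε]
      split_ifs with h6
      · rw [abs_of_nonneg h6, one_mul]
      · rw [abs_of_neg (not_le.1 h6)]
        ring
    rw [h5]
    exact (le_abs_self _).trans ((φ.le_opNorm _).trans
      (mul_le_mul_of_nonneg_left (hsum s ε hε) (norm_nonneg _)))
  have h7 := hsummable.tendsto_atTop_zero
  exact (tendsto_zero_iff_abs_tendsto_zero _).2 h7

/-- The metric condition. -/
def Cond (o : M) (δ : ℝ) : Prop :=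
  ∃ (U : ℕ → Set M) (p q : ℕ → M), (Pairwise fun m n => Disjoint (U m) (U n)) ∧
    (∀ k, o ∉ U k) ∧ (∀ k, p k ∈ U k) ∧ (∀ k, q k ∉ U k) ∧
      ∀ k, ∀ z ∉ U k, (1 - δ) * (dist (q k) z + dist (p k) (q k)) ≤ dist (p k) z

/-- the modification of a function at one region -/
lemma exists_modify (hcpe : CPE M Y) {δ : ℝ} (hδ : δ < 1) {U : Set M} {p q : M} (ho : o ∉ U)
    (hp : p ∈ U) (hq : q ∉ U)
    (hU : ∀ z ∉ U, (1 - δ) * (dist q z + dist p q) ≤ dist p z) (hδ0 : 0 < δ)
    (f : Lip o Y) (hf : ‖f‖ ≤ 1 - δ) (e : Y) (he : ‖e‖ = 1) (t : ℝ) (ht : |t| = 1) :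
    ∃ g : Lip o Y, ‖g‖ ≤ 1 ∧ (∀ x ∉ U, g x = f x) ∧
      g p - g q = (t * ((1 - δ) * dist p q)) • e := by
  classical
  let g0 : M → Y := fun z => if z = p then f q + (t * ((1 - δ) * dist p q)) • e else f z
  have hδ1 : 0 ≤ 1 - δ := by linarith
  have hpq : 0 ≤ (1 - δ) * dist p q := mul_nonneg hδ1 dist_nonneg
  have hnU : ∀ z ∉ U, z ≠ p := fun z hz h => hz (h ▸ hp)
  have g0p : g0 p = f q + (t * ((1 - δ) * dist p q)) • e := if_pos rfl
  have g0z : ∀ z ∉ U, g0 z = f z := fun z hz => if_neg (hnU z hz)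
  have hkey : ∀ z ∉ U, ‖g0 p - g0 z‖ ≤ dist p z := by
    intro z hz
    rw [g0p, g0z z hz]
    have h1 : f q + (t * ((1 - δ) * dist p q)) • e - f z =
        (f q - f z) + (t * ((1 - δ) * dist p q)) • e := by abel
    rw [h1]
    refine (norm_add_le _ _).trans (le_trans ?_ (hU z hz))
    rw [norm_smul, he, mul_one, Real.norm_eq_abs, abs_mul, ht, one_mul, abs_of_nonneg hpq, mul_add]
    refine add_le_add ?_ le_rfl
    exact (f.norm_sub_le q z).trans (mul_le_mul_of_nonneg_right hf dist_nonneg)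
  have hlip : LipschitzOnWith 1 g0 (insert p Uᶜ) := by
    refine LipschitzOnWith.of_dist_le_mul fun x hx y hy => ?_
    rw [NNReal.coe_one, one_mul, dist_eq_norm]
    rcases hx with rfl | hx
    · rcases hy with rfl | hy
      · simp
      · exact hkey y hy
    · rcases hy with rfl | hy
      · rw [norm_sub_rev, dist_comm]
        exact hkey x hx
      · rw [g0z x hx, g0z y hy]
        refine (f.norm_sub_le x y).trans ?_
        exact mul_le_of_le_one_left dist_nonneg (hf.trans (by linarith))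
  obtain ⟨F, hF, hFe⟩ := hcpe _ 1 g0 hlip
  have hFe' : ∀ z ∉ U, F z = f z := fun z hz => by
    rw [hFe (Set.mem_insert_of_mem _ hz), g0z z hz]
  have hFl : ∀ x y, ‖F x - F y‖ ≤ 1 * dist x y := fun x y => by
    have := hF.dist_le_mul x y
    rwa [NNReal.coe_one, dist_eq_norm] at this
  refine ⟨Lip.mk F (by rw [hFe' o ho, f.base]) 1 hFl, Lip.norm_le _ zero_le_one hFl,
    fun x hx => hFe' x hx, ?_⟩
  show F p - F q = _
  rw [hFe (Set.mem_insert _ _), hFe' q hq, g0p]
  abel

/-- The metric condition implies the strong diameter two property. -/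
theorem sd2p_of_cond (hcpe : CPE M Y) (hM : ∀ δ : ℝ, 0 < δ → δ < 1 → Cond o δ) :
    SD2P (Lip o Y) := by
  classical
  intro n φ α lam hφ hα hlam hsum
  set S : Set (Lip o Y) := {z : Lip o Y | ∃ s : Fin n → Lip o Y,
    (∀ i, s i ∈ slice (φ i) (α i)) ∧ z = ∑ i, lam i • s i} with hS
  have hball : ∀ z ∈ S, ‖z‖ ≤ 1 := by
    rintro z ⟨s, hs, rfl⟩
    refine (norm_sum_le _ _).trans ?_
    rw [← hsum]
    refine Finset.sum_le_sum fun i _ => ?_
    rw [norm_smul, Real.norm_of_nonneg (hlam i).le]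
    exact mul_le_of_le_one_right (hlam i).le (hs i).1
  have hbdd : Bornology.IsBounded S := by
    rw [isBounded_iff_forall_norm_le]
    exact ⟨1, hball⟩
  apply le_antisymm
  · refine Metric.diam_le_of_forall_dist_le zero_le_two fun x hx y hy => ?_
    rw [dist_eq_norm]
    exact (norm_sub_le _ _).trans (by linarith [hball x hx, hball y hy])
  · -- there is an index
    have hn : Nonempty (Fin n) := by
      by_contra hne
      rw [not_nonempty_iff] at hne
      rw [Fintype.sum_empty] at hsum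
      exact zero_ne_one hsum
    obtain ⟨i0⟩ := hn
    -- a unit vector in `Y`
    obtain ⟨e, he⟩ : ∃ e : Y, ‖e‖ = 1 := by
      have h1 : φ i0 ≠ 0 := by
        intro h
        have := hφ i0
        rw [h, norm_zero] at this
        exact zero_ne_one this
      obtain ⟨f, hf⟩ : ∃ f, φ i0 f ≠ 0 := by
        by_contra hcon
        push Not at hcon
        exact h1 (ContinuousLinearMap.ext hcon)
      obtain ⟨x, hx⟩ : ∃ x, f x ≠ 0 := by
        by_contra hcon
        push Not at hcon
        apply hf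
        have : f = 0 := Lip.ext hcon
        rw [this, map_zero]
      exact ⟨‖f x‖⁻¹ • f x, by
        rw [norm_smul, norm_inv, norm_norm, inv_mul_cancel₀ (norm_ne_zero_iff.2 hx)]⟩
    refine le_of_forall_pos_le_add fun ε hε => ?_
    -- elements of the slices
    have hex : ∀ i, ∃ f : Lip o Y, ‖f‖ < 1 ∧ 1 - α i < φ i f := by
      intro i
      have h1 : 1 - α i < ‖φ i‖ := by rw [hφ i]; linarith [hα i]
      obtain ⟨f, hf1, hf2⟩ := ContinuousLinearMap.exists_lt_apply_of_lt_opNorm (φ i) h1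
      rcases le_total 0 (φ i f) with h | h
      · exact ⟨f, hf1, by rwa [Real.norm_of_nonneg h] at hf2⟩
      · refine ⟨-f, by rwa [norm_neg], ?_⟩
        rw [map_neg]
        rwa [Real.norm_of_nonpos h] at hf2
    choose f hf1 hf2 using hex
    obtain ⟨δ, hδ0, hδ1, hδε, hδf⟩ : ∃ δ : ℝ, 0 < δ ∧ δ < 1 ∧ 2 * δ ≤ ε ∧ ∀ i, ‖f i‖ ≤ 1 - δ := by
      obtain ⟨j, hj⟩ := @Finite.exists_max _ _ _ ⟨i0⟩ _ fun i => ‖f i‖
      refine ⟨min (min (1 / 2) (ε / 2)) (1 - ‖f j‖), ?_, ?_, ?_, fun i => ?_⟩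
      · have := hf1 j
        have : 0 < 1 - ‖f j‖ := by linarith
        positivity
      · exact ((min_le_left _ _).trans (min_le_left _ _)).trans_lt (by norm_num)
      · have := (min_le_left (min (1 / 2) (ε / 2)) (1 - ‖f j‖)).trans (min_le_right _ _)
        linarith
      · have := min_le_right (min (1 / 2) (ε / 2)) (1 - ‖f j‖)
        have := hj i
        linarith
    obtain ⟨U, p, q, hU, hoU, hpU, hqU, hcond⟩ := hM δ hδ0 hδ1
    have hmod := fun (t : ℝ) (ht : |t| = 1) (i : Fin n) (k : ℕ) =>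
      exists_modify hcpe hδ1 (hoU k) (hpU k) (hqU k) (hcond k) hδ0 (f i) (hδf i) e he t ht
    choose g hg1 hg2 hg3 using hmod
    have hconv : ∀ (t : ℝ) (ht : |t| = 1) (i : Fin n),
        ∀ᶠ k in atTop, g t ht i k ∈ slice (φ i) (α i) := by
      intro t ht i
      have h1 := weak_null hU (C := 2) zero_le_two (fun k => g t ht i k - f i)
        (fun k => (norm_sub_le _ _).trans (by linarith [hg1 t ht i k, hf1 i]))
        (fun k x hx => by rw [Lip.sub_apply, hg2 t ht i k x hx, sub_self]) (φ i)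
      have h2 : ∀ᶠ k in atTop, 1 - α i - φ i (f i) < φ i (g t ht i k - f i) :=
        h1.eventually (lt_mem_nhds (by linarith [hf2 i]))
      filter_upwards [h2] with k hk
      rw [map_sub] at hk
      exact ⟨hg1 t ht i k, by linarith⟩
    have hp1 : |(1 : ℝ)| = 1 := abs_one
    have hm1 : |(-1 : ℝ)| = 1 := by rw [abs_neg, abs_one]
    have hall : ∀ᶠ k in atTop, ∀ i, g 1 hp1 i k ∈ slice (φ i) (α i) ∧
        g (-1) hm1 i k ∈ slice (φ i) (α i) := by
      rw [eventually_all]
      exact fun i => (hconv 1 hp1 i).and (hconv (-1) hm1 i)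
    obtain ⟨k, hk⟩ := hall.exists
    have hz1 : ∑ i, lam i • g 1 hp1 i k ∈ S := ⟨_, fun i => (hk i).1, rfl⟩
    have hz2 : ∑ i, lam i • g (-1) hm1 i k ∈ S := ⟨_, fun i => (hk i).2, rfl⟩
    have hdist := Metric.dist_le_diam_of_mem hbdd hz1 hz2
    rw [dist_eq_norm] at hdist
    have hpq : 0 < dist (p k) (q k) := dist_pos.2 fun h => hqU k (h ▸ hpU k)
    have heval : ∀ (t : ℝ) (ht : |t| = 1),
        (∑ i, lam i • g t ht i k) (p k) - (∑ i, lam i • g t ht i k) (q k) =
          (t * ((1 - δ) * dist (p k) (q k))) • e := by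
      intro t ht
      rw [Lip.sum_apply, Lip.sum_apply, ← Finset.sum_sub_distrib]
      have : ∀ i, (lam i • g t ht i k) (p k) - (lam i • g t ht i k) (q k) =
          lam i • ((t * ((1 - δ) * dist (p k) (q k))) • e) := fun i => by
        rw [Lip.smul_apply, Lip.smul_apply, ← smul_sub, hg3]
      rw [Finset.sum_congr rfl fun i _ => this i, ← Finset.sum_smul, hsum, one_smul]
    have hlow := Lip.norm_sub_le (∑ i, lam i • g 1 hp1 i k - ∑ i, lam i • g (-1) hm1 i k) (p k) (q k)
    have hcalc : (∑ i, lam i • g 1 hp1 i k - ∑ i, lam i • g (-1) hm1 i k) (p k) -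
        (∑ i, lam i • g 1 hp1 i k - ∑ i, lam i • g (-1) hm1 i k) (q k) =
        (2 * ((1 - δ) * dist (p k) (q k))) • e := by
      rw [Lip.sub_apply, Lip.sub_apply]
      have : (∑ i, lam i • g 1 hp1 i k) (p k) - (∑ i, lam i • g (-1) hm1 i k) (p k) -
          ((∑ i, lam i • g 1 hp1 i k) (q k) - (∑ i, lam i • g (-1) hm1 i k) (q k)) =
          ((∑ i, lam i • g 1 hp1 i k) (p k) - (∑ i, lam i • g 1 hp1 i k) (q k)) -
          ((∑ i, lam i • g (-1) hm1 i k) (p k) - (∑ i, lam i • g (-1) hm1 i k) (q k)) := by abel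
      rw [this, heval, heval, ← sub_smul]
      congr 1
      ring
    rw [hcalc, norm_smul, he, mul_one, Real.norm_of_nonneg (by
      have : 0 ≤ 1 - δ := by linarith
      positivity), ← mul_assoc] at hlow
    have := le_of_mul_le_mul_right hlow hpq
    linarith

end Pool.Agent.X171.LS
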