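import Pool.Agent.X171.LS.Main

/-! The metric condition holds in spaces which are unbounded or not uniformly discrete. -/

open Filter Topology Set

namespace Pool.Agent.X171.LS

universe u v

variable {M : Type u} [MetricSpace M] {o : M}

lemma cond_of_rho {δ : ℝ} (hδ0 : 0 < δ) (hδ1 : δ < 1) (ρ : M → ℝ) (h0 : ∀ z, 0 ≤ ρ z)
    (h1 : ∀ x y, ρ x ≤ ρ y + dist x y) (h2 : ∀ x y, dist x y ≤ ρ x + ρ y) (t q : ℕ → M)
    (ht : ∀ k, 0 < ρ (t k)) (hq : ∀ k, ρ (q k) ≤ δ / 4 * ρ (t k))
    (hsep : ∀ m n, m < n → ρ (t m) ≤ (δ / 4) ^ 2 * ρ (t n) ∨ ρ (t n) ≤ (δ / 4) ^ 2 * ρ (t m))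
    (ho : ∀ k, ρ o ≤ δ / 4 * ρ (t k) ∨ ρ (t k) ≤ δ / 4 * ρ o) : Cond o δ := by
  have hθ : 0 < δ / 4 := by positivity
  set θ : ℝ := δ / 4 with hθd
  have hθ1 : θ < 1 / 4 := by rw [hθd]; linarith
  have hδθ : δ = 4 * θ := by rw [hθd]; ring
  let U : ℕ → Set M := fun k => {z | θ * ρ (t k) < ρ z ∧ θ * ρ z < ρ (t k)}
  have hdis : ∀ m n, ρ (t m) ≤ θ ^ 2 * ρ (t n) → Disjoint (U m) (U n) := by
    intro m n h
    refine Set.disjoint_left.2 fun z hz hz' => ?_
    have h3 : θ * ρ z < ρ (t m) := hz.2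
    have h4 : θ * ρ (t n) < ρ z := hz'.1
    have h5 : θ * (θ * ρ (t n)) < θ * ρ z := mul_lt_mul_of_pos_left h4 hθ
    nlinarith
  refine ⟨U, t, q, ?_, ?_, ?_, ?_, ?_⟩
  · intro m n hmn
    rcases lt_or_gt_of_ne hmn with h | h
    · rcases hsep m n h with h' | h'
      · exact hdis m n h'
      · exact (hdis n m h').symm
    · rcases hsep n m h with h' | h'
      · exact (hdis n m h').symm
      · exact hdis m n h'
  · intro k hk
    rcases ho k with h | h
    · exact absurd hk.1 (not_lt.2 h)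
    · exact absurd hk.2 (not_lt.2 h)
  · intro k
    have := ht k
    constructor <;> nlinarith
  · intro k hk
    exact absurd hk.1 (not_lt.2 (hq k))
  · intro k z hz
    have hr := ht k
    set r := ρ (t k) with hrd
    have a1 : dist (q k) z ≤ θ * r + ρ z := (h2 _ _).trans (add_le_add (hq k) le_rfl)
    have a2 : dist (t k) (q k) ≤ r + θ * r := (h2 _ _).trans (add_le_add le_rfl (hq k))
    have hz0 := h0 z
    have b1 : r ≤ ρ z + dist (t k) z := h1 _ _
    have b2 : ρ z ≤ r + dist (t k) z := by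
      have := h1 z (t k)
      rwa [dist_comm] at this
    have hδ' : 0 ≤ 1 - δ := by linarith
    have c1 : (1 - δ) * (dist (q k) z + dist (t k) (q k)) ≤
        (1 - δ) * ((θ * r + ρ z) + (r + θ * r)) := by gcongr
    refine c1.trans ?_
    rw [hδθ]
    rcases le_or_gt (ρ z) (θ * r) with h | h
    · have : (1 - 4 * θ) * ((θ * r + ρ z) + (r + θ * r)) ≤
          (1 - 4 * θ) * ((θ * r + θ * r) + (r + θ * r)) := by
        have : 0 ≤ 1 - 4 * θ := by linarith
        gcongr
      nlinarith [mul_pos (mul_pos hθ hθ) hr]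
    · have h' : r ≤ θ * ρ z := by
        by_contra hcon
        exact hz ⟨h, not_le.1 hcon⟩
      have h'' : θ * r ≤ θ * (θ * ρ z) := mul_le_mul_of_nonneg_left h' hθ.le
      have : (1 - 4 * θ) * ((θ * r + ρ z) + (r + θ * r)) ≤
          (1 - 4 * θ) * ((θ * (θ * ρ z) + ρ z) + (θ * ρ z + θ * (θ * ρ z))) := by
        have : 0 ≤ 1 - 4 * θ := by linarith
        gcongr
      have e1 : (1 - 4 * θ) * ((θ * (θ * ρ z) + ρ z) + (θ * ρ z + θ * (θ * ρ z))) =
          ρ z - θ * ρ z - (2 * (θ * ρ z) + 2 * (θ * θ * ρ z) + 8 * (θ * θ * θ * ρ z)) := by ring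
      have e2 : 0 ≤ 2 * (θ * ρ z) + 2 * (θ * θ * ρ z) + 8 * (θ * θ * θ * ρ z) := by positivity
      linarith

lemma cond_unbounded {δ : ℝ} (hδ0 : 0 < δ) (hδ1 : δ < 1)
    (hM : ¬ Bornology.IsBounded (Set.univ : Set M)) : Cond o δ := by
  have hbig : ∀ R : ℝ, ∃ z : M, R < dist z o := by
    by_contra hcon
    push Not at hcon
    obtain ⟨R, hR⟩ := hcon
    exact hM ((Metric.isBounded_iff_subset_closedBall o).2 ⟨R, fun z _ => hR z⟩)
  obtain ⟨t, ht, hsep⟩ := exists_seq_of_forall_finset_exists (fun x : M => 0 < dist x o)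
    (fun x y => dist x o ≤ (δ / 4) ^ 2 * dist y o) (by
      intro s hs
      obtain ⟨z, hz⟩ := hbig (((δ / 4) ^ 2)⁻¹ * ∑ x ∈ s, dist x o)
      have h0 : 0 ≤ ∑ x ∈ s, dist x o := Finset.sum_nonneg fun x _ => dist_nonneg
      have h1 : 0 < (δ / 4) ^ 2 := by positivity
      refine ⟨z, lt_of_le_of_lt (by positivity) hz, fun x hx => ?_⟩
      rw [inv_mul_lt_iff₀ h1] at hz
      exact (Finset.single_le_sum (f := fun x => dist x o) (fun y _ => dist_nonneg) hx).trans hz.le)
  refine cond_of_rho hδ0 hδ1 (fun z => dist z o) (fun z => dist_nonneg)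
    (fun x y => ?_) (fun x y => dist_triangle_right _ _ _) t (fun _ => o) ht (fun k => ?_)
    (fun m n hmn => Or.inl (hsep m n hmn)) (fun k => Or.inl ?_)
  · have := dist_triangle x y o
    linarith
  · rw [dist_self]
    have := ht k
    positivity
  · rw [dist_self]
    have := ht k
    positivity

lemma cond_cluster {δ : ℝ} (hδ0 : 0 < δ) (hδ1 : δ < 1) (ρ : M → ℝ) (h0 : ∀ z, 0 ≤ ρ z)
    (h1 : ∀ x y, ρ x ≤ ρ y + dist x y) (h2 : ∀ x y, dist x y ≤ ρ x + ρ y)
    (hsmall : ∀ ε > 0, ∃ z, 0 < ρ z ∧ ρ z < ε) : Cond o δ := by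
  classical
  have hθ : 0 < δ / 4 := by positivity
  obtain ⟨t, ht, hsep⟩ := exists_seq_of_forall_finset_exists
    (fun x : M => 0 < ρ x ∧ (ρ o = 0 ∨ ρ x ≤ δ / 4 * ρ o))
    (fun x y => ρ y ≤ (δ / 4) ^ 2 * ρ x) (by
      intro s hs
      obtain ⟨ε, hε, hεs⟩ : ∃ ε > 0, ∀ x ∈ s, ε ≤ (δ / 4) ^ 2 * ρ x := by
        induction s using Finset.induction_on with
        | empty => exact ⟨1, one_pos, by simp⟩
        | insert a s ha ih =>
          obtain ⟨ε, hε, h⟩ := ih fun x hx => hs x (Finset.mem_insert_of_mem hx)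
          have ha' := (hs a (Finset.mem_insert_self _ _)).1
          refine ⟨min ε ((δ / 4) ^ 2 * ρ a), by positivity, fun x hx => ?_⟩
          rcases Finset.mem_insert.1 hx with rfl | hx
          · exact min_le_right _ _
          · exact (min_le_left _ _).trans (h x hx)
      obtain ⟨ε', hε', hε'o⟩ : ∃ ε' > 0, ρ o = 0 ∨ ε' ≤ δ / 4 * ρ o := by
        rcases (h0 o).eq_or_lt with h | h
        · exact ⟨1, one_pos, Or.inl h.symm⟩
        · exact ⟨δ / 4 * ρ o, by positivity, Or.inr le_rfl⟩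
      obtain ⟨z, hz1, hz2⟩ := hsmall (min ε ε') (by positivity)
      refine ⟨z, ⟨hz1, ?_⟩, fun x hx => (hz2.le.trans (min_le_left _ _)).trans (hεs x hx)⟩
      rcases hε'o with h | h
      · exact Or.inl h
      · exact Or.inr ((hz2.le.trans (min_le_right _ _)).trans h))
  refine cond_of_rho hδ0 hδ1 ρ h0 h1 h2 t (fun k => t (k + 1)) (fun k => (ht k).1) (fun k => ?_)
    (fun m n hmn => Or.inr (hsep m n hmn)) (fun k => ?_)
  · refine (hsep k (k + 1) (Nat.lt_succ_self k)).trans ?_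
    have h3 : (δ / 4) ^ 2 ≤ δ / 4 := by nlinarith
    exact mul_le_mul_of_nonneg_right h3 (h0 _)
  · rcases (ht k).2 with h | h
    · left
      rw [h]
      have := (ht k).1
      positivity
    · exact Or.inr h

lemma cond_separated {δ : ℝ} (hδ0 : 0 < δ) (hδ1 : δ < 1) {c : ℝ} (hc : 0 < c)
    (h : ∀ η > 0, ∀ s : Finset M, ∃ x, (∃ y, y ≠ x ∧ dist x y < η) ∧ ∀ z ∈ s, c ≤ dist z x) :
    Cond o δ := by
  classical
  set η : ℝ := δ * c / 4 with hη
  have hη0 : 0 < η := by positivity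
  obtain ⟨x, hx, hsep⟩ := exists_seq_of_forall_finset_exists
    (fun x : M => (∃ y, y ≠ x ∧ dist x y < η) ∧ c ≤ dist o x) (fun x y => c ≤ dist x y) (by
      intro s _
      obtain ⟨y, hy, hy'⟩ := h η hη0 (insert o s)
      exact ⟨y, ⟨hy, hy' o (Finset.mem_insert_self _ _)⟩,
        fun z hz => hy' z (Finset.mem_insert_of_mem hz)⟩)
  choose y hy1 hy2 using fun n => (hx n).1
  refine ⟨fun k => Metric.ball (x k) (c / 2) \ {y k}, x, y, ?_, ?_, ?_, ?_, ?_⟩
  · have hd : ∀ m n, m < n → Disjoint (Metric.ball (x m) (c / 2) \ {y m})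
        (Metric.ball (x n) (c / 2) \ {y n}) := by
      intro m n hmn
      refine Set.disjoint_left.2 fun z hz hz' => ?_
      have h1 := Metric.mem_ball.1 hz.1
      have h2 := Metric.mem_ball.1 hz'.1
      have h3 := hsep m n hmn
      have h4 := dist_triangle_left (x m) (x n) z
      linarith
    intro m n hmn
    rcases lt_or_gt_of_ne hmn with h | h
    · exact hd m n h
    · exact (hd n m h).symm
  · intro k hk
    have h1 := Metric.mem_ball.1 hk.1
    have h2 := (hx k).2
    linarith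
  · intro k
    exact ⟨Metric.mem_ball_self (by positivity), fun h => hy1 k h.symm⟩
  · intro k hk
    exact hk.2 rfl
  · intro k z hz
    by_cases hzy : z = y k
    · subst hzy
      rw [dist_self, zero_add]
      exact mul_le_of_le_one_left dist_nonneg (by linarith)
    · have hzb : c / 2 ≤ dist (x k) z := by
        by_contra hcon
        apply hz
        refine ⟨?_, hzy⟩
        rw [Metric.mem_ball, dist_comm]
        exact not_le.1 hcon
      have h1 : dist (y k) z ≤ dist (x k) (y k) + dist (x k) z := by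
        rw [dist_comm (x k) (y k)]
        exact dist_triangle _ _ _
      have h2 := hy2 k
      have h3 : (1 - δ) * (dist (y k) z + dist (x k) (y k)) ≤
          (1 - δ) * (dist (x k) z + 2 * η) :=
        mul_le_mul_of_nonneg_left (by linarith) (by linarith)
      refine h3.trans ?_
      have h4 : δ * (c / 2) ≤ δ * dist (x k) z := mul_le_mul_of_nonneg_left hzb hδ0.le
      have h5 : 2 * η = δ * (c / 2) := by rw [hη]; ring
      nlinarith

lemma cond_not_discrete {δ : ℝ} (hδ0 : 0 < δ) (hδ1 : δ < 1)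
    (hM : ¬ ∃ r > 0, ∀ x y : M, x ≠ y → r ≤ dist x y) : Cond o δ := by
  classical
  by_cases hB : ∃ c > 0, ∀ η > 0, ∀ s : Finset M, ∃ x, (∃ y, y ≠ x ∧ dist x y < η) ∧
      ∀ z ∈ s, c ≤ dist z x
  · obtain ⟨c, hc, h⟩ := hB
    exact cond_separated hδ0 hδ1 hc h
  · push Not at hB hM
    have hpair : ∀ n : ℕ, ∃ p : M × M, p.1 ≠ p.2 ∧ dist p.1 p.2 < 1 / ((n : ℝ) + 1) := fun n => by
      obtain ⟨x, y, hxy, h⟩ := hM (1 / ((n : ℝ) + 1)) (by positivity)
      exact ⟨(x, y), hxy, h⟩
    choose p hp1 hp2 using hpair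
    have htb : TotallyBounded (range fun n => (p n).1) := by
      rw [Metric.totallyBounded_iff]
      intro c hc
      obtain ⟨η, hη, s, hs⟩ := hB c hc
      obtain ⟨N, hN⟩ := exists_nat_one_div_lt hη
      refine ⟨(s : Set M) ∪ (fun n => (p n).1) '' (Set.Iio N), s.finite_toSet.union
        ((Set.finite_Iio N).image _), ?_⟩
      rintro _ ⟨n, rfl⟩
      rcases lt_or_ge n N with h | h
      · refine mem_iUnion₂.2 ⟨(p n).1, Or.inr ⟨n, h, rfl⟩, Metric.mem_ball_self hc⟩
      · obtain ⟨z, hz, hzd⟩ := hs (p n).1 ⟨(p n).2, (hp1 n).symm, by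
          refine (hp2 n).trans (lt_of_le_of_lt ?_ hN)
          have : (N : ℝ) ≤ n := by exact_mod_cast h
          gcongr⟩
        refine mem_iUnion₂.2 ⟨z, Or.inl hz, ?_⟩
        rw [Metric.mem_ball, dist_comm]
        exact hzd
    have hcomp : IsCompact (closure ((fun z : M => (z : UniformSpace.Completion M)) ''
        range fun n => (p n).1)) :=
      ((htb.image (UniformSpace.Completion.uniformContinuous_coe M)).closure).isCompact_of_isClosed
        isClosed_closure
    obtain ⟨a, -, φ, hφ, hlim⟩ := hcomp.tendsto_subseq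
      (x := fun n => ((p n).1 : UniformSpace.Completion M))
      fun n => subset_closure ⟨_, ⟨n, rfl⟩, rfl⟩
    have hdc : ∀ x y : M, dist (x : UniformSpace.Completion M) y = dist x y :=
      UniformSpace.Completion.dist_eq
    refine cond_cluster hδ0 hδ1 (fun z => dist (z : UniformSpace.Completion M) a)
      (fun z => dist_nonneg) (fun x y => ?_) (fun x y => ?_) fun ε hε => ?_
    · rw [← hdc x y]
      have := dist_triangle (x : UniformSpace.Completion M) y a
      linarith
    · rw [← hdc x y]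
      exact dist_triangle_right _ _ _
    · have e1 : ∀ᶠ n in atTop, dist ((p (φ n)).1 : UniformSpace.Completion M) a < ε / 2 :=
        hlim.eventually (Metric.ball_mem_nhds a (half_pos hε))
      have e2 : ∀ᶠ n : ℕ in atTop, 1 / ((φ n : ℝ) + 1) < ε / 2 :=
        (tendsto_one_div_add_atTop_nhds_zero_nat.comp hφ.tendsto_atTop).eventually
          (gt_mem_nhds (half_pos hε))
      obtain ⟨n, h1, h2⟩ := (e1.and e2).exists
      have h3 : dist ((p (φ n)).2 : UniformSpace.Completion M) a < ε := by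
        have h4 := dist_triangle ((p (φ n)).2 : UniformSpace.Completion M) (p (φ n)).1 a
        have h5 := hp2 (φ n)
        rw [← hdc, dist_comm] at h5
        linarith
      by_cases hz : ((p (φ n)).1 : UniformSpace.Completion M) = a
      · refine ⟨(p (φ n)).2, dist_pos.2 fun h => hp1 (φ n) ?_, h3⟩
        exact UniformSpace.Completion.coe_inj.1 (hz.trans h.symm)
      · exact ⟨(p (φ n)).1, dist_pos.2 hz, h1.trans (half_lt_self hε)⟩

end Pool.Agent.X171.LS
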